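import Pool.Agent.TH206.Fro.Final

/-!
Monomials and the product inequality for `3 k + 2 ≤ d`: definitions.
-/

set_option autoImplicit false

namespace Pool.Agent.TH176.NM

open Finset Pool.Agent.TH206.Fro
open scoped Pointwise

/-- The monomials of degree `e` in the variables after those of `a`. -/
noncomputable def HS (n e : ℕ) (a : Fin n →₀ ℕ) : Finset (Fin n →₀ ℕ) :=
  (Mon n e).filter (fun w => ∀ i j, a i ≠ 0 → w j ≠ 0 → i ≤ j)

/-- The monomials of degree `l` without divisors in `A`. -/
noncomputable def M0 (n l : ℕ) (A : Finset (Fin n →₀ ℕ)) : Finset (Fin n →₀ ℕ) :=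
  (Mon n l).filter (fun y => ∀ a ∈ A, ¬ a ≤ y)

end Pool.Agent.TH176.NM
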