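import Pool.Agent.TH176.NM.Full

/-!
Equal degrees and at least `4 ^ (n - 1)` forms.
-/

set_option autoImplicit false

namespace Pool.Agent.TH176.NM

open Finset MvPolynomial Pool.Agent.TH206.Fro Pool.Agent.TH176.FB

lemma card_Mon_ch (N k : ℕ) : (Mon (N + 1) k).card = (k + N).choose N := by
  rw [card_Mon, show N + 1 + k - 1 = k + N by omega]
  exact Nat.choose_symm_add

/-- degrees at most four thirds of the least degree are good -/
lemma Gd_of_four (n : ℕ) {r : ℕ} (d : Fin r → ℕ) (k : ℕ) (h : ∀ i, 3 * k + 2 ≤ 4 * d i) :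
    Gd n d k := by
  intro i
  have := h i
  exact ⟨by omega, fun h2 => Or.inr (Or.inl (by omega))⟩

lemma le_four_pow (n : ℕ) (hn : 1 ≤ n) : n ≤ 4 ^ (n - 1) := by
  obtain ⟨m, rfl⟩ : ∃ m, n = m + 1 := ⟨n - 1, by omega⟩
  rw [Nat.add_sub_cancel]
  exact Nat.lt_pow_self (by norm_num)

theorem equal (n r δ : ℕ) (d : Fin r → ℕ) (hn : 3 ≤ n) (hr : 4 ^ (n - 1) ≤ r) (hδ : 1 ≤ δ)
    (hd : ∀ i, d i = δ) (k : ℕ) : Gd n d k ∨ ∃ D ≤ k, Gd n d D ∧ co n d D ≤ 0 := by
  classical
  have hco : ∀ D, D < 2 * δ → δ ≤ D → (Mon n D).card ≤ r * (Mon n (D - δ)).card →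
      co n d D ≤ 0 := by
    intro D hD hD2 h
    rw [co_thm n r D d (by omega) (fun i => by rw [hd]; omega) D le_rfl]
    have h2 : ∀ i ∈ (Finset.univ : Finset (Fin r)),
        (if d i ≤ D then ((Mon n (D - d i)).card : ℤ) else 0) = ((Mon n (D - δ)).card : ℤ) := by
      intro i _
      rw [hd, if_pos hD2]
    rw [Finset.sum_congr rfl h2, Finset.sum_const, Finset.card_univ, Fintype.card_fin,
      nsmul_eq_mul]
    have h3 : ((Mon n D).card : ℤ) ≤ (r : ℤ) * ((Mon n (D - δ)).card : ℤ) := by exact_mod_cast h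
    linarith
  rcases Nat.lt_or_ge δ 2 with h1 | h1
  · have hδ1 : δ = 1 := by omega
    subst hδ1
    rcases Nat.eq_zero_or_pos k with hk | hk
    · left
      subst hk
      intro i
      rw [hd]
      exact ⟨by omega, fun h => by omega⟩
    · right
      refine ⟨1, hk, fun i => ⟨by rw [hd]; omega, fun _ => Or.inl (hd i).symm⟩,
        hco 1 (by omega) le_rfl ?_⟩
      rw [card_Mon, card_Mon]
      have h2 := le_four_pow n (by omega)
      simp only [Nat.sub_self, Nat.choose_zero_right, mul_one, Nat.choose_one_right]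
      omega
  · obtain ⟨m, hm⟩ : ∃ m, m = (δ - 2) / 3 := ⟨_, rfl⟩
    have hm1 : 3 * m + 2 ≤ δ := by omega
    have hm2 : δ ≤ 3 * m + 4 := by omega
    rcases Nat.lt_or_ge k (δ + m) with hk | hk
    · left
      exact Gd_of_four n d k (fun i => by rw [hd]; omega)
    · right
      refine ⟨δ + m, hk, Gd_of_four n d _ (fun i => by rw [hd]; omega),
        hco (δ + m) (by omega) (by omega) ?_⟩
      obtain ⟨N, rfl⟩ : ∃ N, n = N + 1 := ⟨n - 1, by omega⟩
      rw [Nat.add_sub_cancel] at hr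
      rw [card_Mon_ch, card_Mon_ch, show δ + m - δ = m by omega]
      exact (count4 N m δ (by omega) hm2).trans (Nat.mul_le_mul_right _ hr)

end Pool.Agent.TH176.NM
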