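import Pool.Agent.TH176.NM.MonM
import Pool.Agent.TH176.FB.Base

/-!
The formula of Froeberg in degrees at most four thirds of the least degree, and in all degrees if
the predicted value is zero somewhere there.
-/

set_option autoImplicit false

namespace Pool.Agent.TH176.NM

open Finset MvPolynomial Pool.Agent.TH206.Fro Pool.Agent.TH176.FB

/-- The condition on one degree `k`. -/
def Gd (n : ℕ) {r : ℕ} (d : Fin r → ℕ) (k : ℕ) : Prop :=
  ∀ i, k < 2 * d i ∧ (d i ≤ k → (k = d i ∨ 3 * (k - d i) + 2 ≤ d i ∨ Cond n (k - d i) (d i)))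

lemma Gd.subM {n r k : ℕ} (hn : 1 ≤ n) {d : Fin r → ℕ} (h : Gd n d k) :
    ∀ i, d i ≤ k → SubM n (k - d i) (d i) := by
  intro i hi
  obtain ⟨h1, h2⟩ := h i
  apply subM_of_monM init_thm
  rcases h2 hi with h3 | h3 | h3
  · rw [h3, Nat.sub_self]
    exact monM_zero n (d i)
  · exact monM_new n (k - d i) (d i) hn h3
  · exact Cond.monM hn (by omega) h3

/-- The value predicted by Froeberg is zero above a degree `D` in which the coefficient is not
positive. -/
lemma fro_zero_of (n r D : ℕ) (d : Fin r → ℕ) (h : co n d D ≤ 0) (k : ℕ) (hk : D ≤ k) :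
    fro n d k = 0 := by
  unfold fro
  rw [if_neg]
  push Not
  exact ⟨D, hk, h⟩

theorem full (K : Type) [Field K] (n r : ℕ) (d : Fin r → ℕ) (hn : 1 ≤ n) :
    ∃ P : MvPolynomial (Io n d) K, P ≠ 0 ∧
      ∀ f : Fin r → MvPolynomial (Fin n) K, (∀ i, (f i).IsHomogeneous (d i)) →
        MvPolynomial.eval (fun s : Io n d => (f s.1).coeff s.2.1) P ≠ 0 →
        ∀ k : ℕ, (Gd n d k ∨ ∃ D ≤ k, Gd n d D ∧ co n d D ≤ 0) → hilb f k = fro n d k := by
  classical
  rcases Nat.eq_zero_or_pos r with hr | hr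
  · -- no forms
    subst hr
    refine ⟨1, one_ne_zero, fun f hf _ k _ => ?_⟩
    refine hilb_eq K n 0 k d hn (fun i => i.elim0) f hf ?_
    have h1 : Fintype.card (Ro n k d) = 0 := by
      rw [card_Ro]; simp
    rw [h1]
    exact (min_le_left _ _).trans (Nat.zero_le _)
  · obtain ⟨i0, hi0⟩ : ∃ i0 : Fin r, i0 = ⟨0, hr⟩ := ⟨_, rfl⟩
    have hA : ∀ k : ℕ, ∃ P : MvPolynomial (Io n d) K, P ≠ 0 ∧
        ∀ f : Fin r → MvPolynomial (Fin n) K, (∀ i, (f i).IsHomogeneous (d i)) →
          MvPolynomial.eval (fun s : Io n d => (f s.1).coeff s.2.1) P ≠ 0 →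
          Gd n d k → min (Fintype.card (Ro n k d)) (Mon n k).card ≤ Module.finrank K (ik f k) := by
      intro k
      by_cases h : Gd n d k
      · obtain ⟨P, hP, hP2⟩ := rank_eval n k r d K hn (h.subM hn)
        refine ⟨P, hP, fun f hf hfP _ => ?_⟩
        unfold ik
        rw [hilb_thm n k r d K f hf, hP2 _ hfP]
      · exact ⟨1, one_ne_zero, fun f _ _ h' => absurd h' h⟩
    choose P hP hP2 using hA
    refine ⟨∏ D ∈ Finset.range (2 * d i0), P D, Finset.prod_ne_zero_iff.2 fun D _ => hP D,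
      fun f hf hfP => ?_⟩
    rw [map_prod, Finset.prod_ne_zero_iff] at hfP
    have hgood : ∀ k, Gd n d k →
        min (Fintype.card (Ro n k d)) (Mon n k).card ≤ Module.finrank K (ik f k) := by
      intro k hk
      exact hP2 k f hf (hfP k (Finset.mem_range.2 (hk i0).1)) hk
    intro k hk
    rcases hk with hk | ⟨D, hDk, hD, hco⟩
    · exact hilb_eq K n r k d hn (fun i => (hk i).1) f hf (hgood k hk)
    · have h1 := hgood D hD
      have h2 := hco
      rw [co_thm n r D d hn (fun i => (hD i).1) D le_rfl] at h2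
      have h3 : (Mon n D).card ≤ Fintype.card (Ro n D d) := by
        rw [card_Ro]
        have h4 : ((Mon n D).card : ℤ) ≤
            ((∑ i, (if d i ≤ D then (Mon n (D - d i)).card else 0) : ℕ) : ℤ) := by
          push_cast
          linarith
        exact_mod_cast h4
      rw [min_eq_right h3] at h1
      have htop := ik_top_of_card f D h1
      rw [fro_zero_of n r D d hco k hDk]
      exact hilb_zero_of_top f k (ik_top_mono f _ k hDk htop)

end Pool.Agent.TH176.NM
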