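import Pool.Agent.TH176.NM.Lib

/-!
The sharp inequality for the monomials without divisors in a strongly stable set.
-/

set_option autoImplicit false

namespace Pool.Agent.TH176.NM

open Finset Pool.Agent.TH206.Fro
open scoped Pointwise

lemma pow_mem {n : ℕ} (k : ℕ) (z : Fin n) (hz : ∀ i, z ≤ i) (A : Finset (Fin n →₀ ℕ))
    (hs : Stable A) (hA : A ⊆ Mon n k) (hA0 : A.Nonempty) : Finsupp.single z k ∈ A := by
  classical
  obtain ⟨a, ha, hmax⟩ := Finset.exists_max_image A (fun a => a z) hA0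
  have hall : ∀ j, j ≠ z → a j = 0 := by
    intro j hj
    by_contra hne
    have hlt : z < j := lt_of_le_of_ne (hz j) (Ne.symm hj)
    have h1 := hs a ha z j hlt (Nat.pos_of_ne_zero hne)
    have h2 := hmax _ h1
    have h3 : (mv z j a) z = a z + 1 := by
      unfold mv
      simp [hj]
    omega
  have h4 : a = Finsupp.single z k := by
    have h5 : a z = k := by
      have h6 := mem_Mon.1 (hA ha)
      rw [Finset.sum_eq_single z (fun b _ hb => hall b hb) (fun h => absurd (Finset.mem_univ _) h)]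
        at h6
      exact h6
    ext j
    by_cases hj : j = z
    · subst hj; simp [h5]
    · rw [hall j hj, Finsupp.single_apply, if_neg (Ne.symm hj)]
  rw [← h4]; exact ha

lemma M0_card_le (n k e : ℕ) (A : Finset (Fin n →₀ ℕ)) :
    (M0 n (k + e) A).card ≤ ∑ a ∈ Mon n k \ A, (HS n e a).card := by
  classical
  rw [← Finset.card_sigma]
  refine Finset.card_le_card_of_surjOn (fun p : Σ _ : (Fin n →₀ ℕ), (Fin n →₀ ℕ) => p.1 + p.2) ?_
  intro y hy
  have hy' : y ∈ M0 n (k + e) A := hy
  unfold M0 at hy'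
  rw [Finset.mem_filter] at hy'
  obtain ⟨a, ha, w, hw, haw⟩ := exists_split n k e y hy'.1
  refine ⟨⟨a, w⟩, ?_, haw⟩
  rw [Finset.mem_coe, Finset.mem_sigma]
  refine ⟨Finset.mem_sdiff.2 ⟨ha, fun hA => hy'.2 a hA ?_⟩, hw⟩
  rw [← haw]
  exact le_self_add

theorem key_thm (n k e : ℕ) (hn : 1 ≤ n) (he : 1 ≤ e) (A : Finset (Fin n →₀ ℕ))
    (hA : A ⊆ Mon n k) (hs : Stable A) (hA0 : A.Nonempty) :
    (M0 n (k + e) A).card * (Mon n k).card + (Mon n k \ A).card * (Mon n (e - 1)).card ≤
      (Mon n k \ A).card * (Mon n (k + e)).card := by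
  classical
  obtain ⟨z, hz⟩ : ∃ z : Fin n, ∀ i, z ≤ i := ⟨⟨0, by omega⟩, fun i => Nat.zero_le _⟩
  obtain ⟨p, hp⟩ : ∃ p : Fin n →₀ ℕ, p = Finsupp.single z k := ⟨_, rfl⟩
  have hpA : p ∈ A := by rw [hp]; exact pow_mem k z hz A hs hA hA0
  obtain ⟨g, hg⟩ : ∃ g : (Fin n →₀ ℕ) → ℚ, g = fun c => ((HS n e c).card : ℚ) -
    (if c = p then ((Mon n (e - 1)).card : ℚ) else 0) := ⟨_, rfl⟩
  have hgle : ∀ c, g c ≤ (Mon n e).card := by
    intro c
    rw [hg]
    have h1 : ((HS n e c).card : ℚ) ≤ (Mon n e).card := by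
      exact_mod_cast Finset.card_le_card (Finset.filter_subset _ _)
    have h2 : (0 : ℚ) ≤ (if c = p then ((Mon n (e - 1)).card : ℚ) else 0) := by
      split_ifs <;> positivity
    simp only
    linarith
  have hmono : ∀ c ∈ Mon n k, ∀ i j : Fin n, i < j → 0 < c i → g (mv j i c) ≤ g c := by
    intro c hc i j hij hi
    have hne : mv j i c ≠ p := by
      intro h
      have h1 : (mv j i c) j = p j := by rw [h]
      have h2 : p j = 0 := by
        rw [hp, Finsupp.single_apply, if_neg]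
        intro h3
        rw [← h3] at hij
        exact absurd (hz i) (not_le.2 hij)
      have h3 : 0 < (mv j i c) j := by
        unfold mv
        simp
      omega
    rw [hg]
    simp only [if_neg hne, sub_zero]
    by_cases hcp : c = p
    · rw [if_pos hcp]
      have hiz : i = z := by
        by_contra hne2
        rw [hcp, hp, Finsupp.single_apply, if_neg (fun h => hne2 h.symm)] at hi
        exact absurd hi (lt_irrefl _)
      have h1 := HS_pow_mv n k e he z hz j (hiz ▸ hij)
      rw [hcp, hp, hiz, HS_pow_card n k e z hz]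
      have h2 : (((HS n e (mv j z (Finsupp.single z k))).card : ℚ)) + ((Mon n (e - 1)).card : ℚ) ≤
          ((Mon n e).card : ℚ) := by exact_mod_cast h1
      linarith
    · rw [if_neg hcp, sub_zero]
      exact_mod_cast HS_anti n k e c i j hij hi
  have hF := fkg_thm n k A (fun c => ((Mon n e).card : ℚ) - g c) hA hs
    (fun c _ => by have := hgle c; linarith)
    (fun c hc i j hij hi => by have := hmono c hc i j hij hi; linarith)
  rw [Finset.sum_sub_distrib, Finset.sum_sub_distrib, Finset.sum_const, Finset.sum_const,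
    nsmul_eq_mul, nsmul_eq_mul] at hF
  have hsplit : ∑ c ∈ Mon n k, g c = ∑ c ∈ Mon n k \ A, g c + ∑ c ∈ A, g c :=
    (Finset.sum_sdiff hA).symm
  have hcardN : (Mon n k \ A).card + A.card = (Mon n k).card :=
    Finset.card_sdiff_add_card_eq_card hA
  have hcard : ((Mon n k \ A).card : ℚ) + A.card = (Mon n k).card := by exact_mod_cast hcardN
  have hT : ∑ c ∈ Mon n k \ A, g c = ∑ c ∈ Mon n k \ A, ((HS n e c).card : ℚ) := by
    refine Finset.sum_congr rfl fun c hc => ?_
    rw [hg]
    have hne : c ≠ p := fun h => (Finset.mem_sdiff.1 hc).2 (h ▸ hpA)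
    simp only [if_neg hne, sub_zero]
  have hM : ∑ c ∈ Mon n k, g c + (Mon n (e - 1)).card ≤ ((Mon n (k + e)).card : ℚ) := by
    have h1 : ∑ c ∈ Mon n k, g c = ∑ c ∈ Mon n k, ((HS n e c).card : ℚ) - (Mon n (e - 1)).card := by
      rw [hg, Finset.sum_sub_distrib]
      congr 1
      rw [Finset.sum_ite_eq' , if_pos (hA hpA)]
    have h2 : ∑ c ∈ Mon n k, ((HS n e c).card : ℚ) ≤ ((Mon n (k + e)).card : ℚ) := by
      exact_mod_cast sum_HS_le n k e
    rw [h1]; linarith
  have hM0 : ((M0 n (k + e) A).card : ℚ) ≤ ∑ c ∈ Mon n k \ A, ((HS n e c).card : ℚ) := by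
    exact_mod_cast M0_card_le n k e A
  have hmain : ((M0 n (k + e) A).card : ℚ) * (Mon n k).card +
      (Mon n k \ A).card * (Mon n (e - 1)).card ≤ (Mon n k \ A).card * (Mon n (k + e)).card := by
    have hT0 : (0 : ℚ) ≤ ((Mon n k \ A).card : ℚ) := by positivity
    have hN0 : (0 : ℚ) ≤ ((Mon n k).card : ℚ) := by positivity
    have h1 : ((Mon n k).card : ℚ) * ∑ c ∈ Mon n k \ A, g c ≤
        ((Mon n k \ A).card : ℚ) * ∑ c ∈ Mon n k, g c := by
      have h2 : ∑ c ∈ Mon n k \ A, g c = ∑ c ∈ Mon n k, g c - ∑ c ∈ A, g c := by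
        rw [hsplit]; ring
      have h3 : ((Mon n k \ A).card : ℚ) = (Mon n k).card - A.card := by linarith
      rw [h2, h3]
      nlinarith [hF]
    have h4 := mul_le_mul_of_nonneg_left hM0 hN0
    have h5 := mul_le_mul_of_nonneg_left hM hT0
    rw [hT] at h1
    nlinarith [h1, h4, h5]
  exact_mod_cast hmain

end Pool.Agent.TH176.NM
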