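import Pool.Agent.TH176.NM.Defs

/-!
Monomials and the product inequality for `3 k + 2 ≤ d`: lemmas (pieces written by helpers 824, 147,
889, 230, 126 and 787).
-/

set_option autoImplicit false

namespace Pool.Agent.TH176.NM

open Finset Pool.Agent.TH206.Fro
open scoped Pointwise

section

/-- every monomial of degree k+e is a product of its k first letters and its e last ones -/
lemma exists_split (n k e : ℕ) (y : Fin n →₀ ℕ) (hy : y ∈ Mon n (k + e)) :
    ∃ a ∈ Mon n k, ∃ w ∈ HS n e a, a + w = y := by
  classical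
  induction e generalizing y with
  | zero =>
    refine ⟨y, hy, 0, ?_, add_zero y⟩
    unfold HS
    rw [mem_filter, mem_Mon']
    refine ⟨map_zero _, fun i j _ h => absurd rfl h⟩
  | succ e ih =>
    rw [mem_Mon'] at hy
    have hne : y.support.Nonempty := by
      rw [Finsupp.support_nonempty_iff]
      rintro rfl
      rw [map_zero] at hy
      omega
    obtain ⟨m, hm, hmax⟩ : ∃ m, y m ≠ 0 ∧ ∀ i, y i ≠ 0 → i ≤ m :=
      ⟨y.support.max' hne, Finsupp.mem_support_iff.1 (y.support.max'_mem hne),
        fun i hi => y.support.le_max' i (Finsupp.mem_support_iff.2 hi)⟩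
    have hle : Finsupp.single m 1 ≤ y := by
      rw [Finsupp.single_le_iff]
      omega
    obtain ⟨y', hy'⟩ : ∃ y', y = y' + Finsupp.single m 1 :=
      ⟨y - Finsupp.single m 1, (tsub_add_cancel_of_le hle).symm⟩
    have hdeg : Finsupp.degree y' = k + e := by
      rw [hy', map_add, Finsupp.degree_single] at hy
      omega
    obtain ⟨a, ha, w, hw, haw⟩ := ih y' (mem_Mon'.2 hdeg)
    refine ⟨a, ha, w + Finsupp.single m 1, ?_, ?_⟩
    · unfold HS at hw ⊢
      rw [mem_filter, mem_Mon'] at hw ⊢
      refine ⟨?_, ?_⟩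
      · rw [map_add, Finsupp.degree_single, hw.1]
      · intro i j hi hj
        by_cases hjm : j = m
        · subst hjm
          apply hmax
          rw [hy', ← haw]
          simp only [Finsupp.add_apply]
          omega
        · apply hw.2 i j hi
          rw [Finsupp.add_apply, Finsupp.single_eq_of_ne hjm] at hj
          simpa using hj
    · rw [← add_assoc, haw, ← hy']

end

section

lemma exists_lt {n k : ℕ} {a b : Fin n →₀ ℕ} (ha : ∑ i, a i = k) (hb : ∑ i, b i = k)
    (h : a ≠ b) : ∃ i, a i < b i := by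
  by_contra hcon
  push Not at hcon
  have h1 : ∑ i, b i = ∑ i, a i := by rw [ha, hb]
  have h2 := (Finset.sum_eq_sum_iff_of_le (fun i _ => hcon i)).1 h1
  exact h (Finsupp.ext fun i => (h2 i (mem_univ i)).symm)

lemma sum_HS_le (n k e : ℕ) : ∑ a ∈ Mon n k, (HS n e a).card ≤ (Mon n (k + e)).card := by
  classical
  rw [← Finset.card_sigma]
  refine Finset.card_le_card_of_injOn (fun q => q.1 + q.2) ?_ ?_
  · rintro ⟨a, w⟩ hq
    rw [Finset.mem_coe, Finset.mem_sigma] at hq
    have h1 := mem_Mon.1 hq.1
    have h2 := mem_Mon.1 (Finset.mem_filter.1 hq.2).1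
    refine mem_Mon.2 ?_
    simp only [Finsupp.add_apply, sum_add_distrib]
    rw [h1, h2]
  · rintro ⟨a, w⟩ hq ⟨a', w'⟩ hq' h
    rw [Finset.mem_coe, Finset.mem_sigma] at hq hq'
    simp only at h
    have hs : ∀ i, a i + w i = a' i + w' i := fun i => by
      have := DFunLike.congr_fun h i
      simpa using this
    have h1 := mem_Mon.1 hq.1
    have h1' := mem_Mon.1 hq'.1
    have h2 := (Finset.mem_filter.1 hq.2).2
    have h2' := (Finset.mem_filter.1 hq'.2).2
    have haa : a = a' := by
      by_contra hne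
      obtain ⟨i, hi⟩ := exists_lt h1 h1' hne
      obtain ⟨j, hj⟩ := exists_lt h1' h1 (Ne.symm hne)
      have e1 := hs i
      have e2 := hs j
      have h3 := h2 j i (by simp only at *; omega) (by simp only at *; omega)
      have h4 := h2' i j (by simp only at *; omega) (by simp only at *; omega)
      have h5 : i = j := le_antisymm h4 h3
      rw [h5] at hi
      omega
    subst haa
    have : w = w' := Finsupp.ext fun i => by
      have := hs i
      omega
    rw [this]

end

section

lemma mv_apply_target {n : ℕ} (i j : Fin n) (c : Fin n →₀ ℕ) : mv i j c i ≠ 0 := by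
  unfold mv
  simp

lemma mv_apply_ne {n : ℕ} (i j l : Fin n) (c : Fin n →₀ ℕ) (hl : l ≠ j) (hc : c l ≠ 0) :
    mv i j c l ≠ 0 := by
  unfold mv
  simp only [Finsupp.add_apply, Finsupp.tsub_apply, Finsupp.single_apply]
  rw [if_neg (Ne.symm hl)]
  omega

lemma HS_anti (n k e : ℕ) (c : Fin n →₀ ℕ) (i j : Fin n) (hij : i < j) (hi : 0 < c i) :
    (HS n e (mv j i c)).card ≤ (HS n e c).card := by
  apply Finset.card_le_card
  intro w hw
  unfold HS at hw ⊢
  rw [Finset.mem_filter] at hw ⊢
  refine ⟨hw.1, fun l t hl ht => ?_⟩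
  by_cases hli : l = i
  · subst hli
    exact hij.le.trans (hw.2 j t (mv_apply_target j l c) ht)
  · exact hw.2 l t (mv_apply_ne j i l c hli hl) ht

/-- for `0` the first index -/
lemma HS_pow_card (n k e : ℕ) (z : Fin n) (hz : ∀ i, z ≤ i) :
    (HS n e (Finsupp.single z k)).card = (Mon n e).card := by
  congr 1
  unfold HS
  rw [Finset.filter_true_of_mem]
  intro w _ i j hi _
  have : i = z := by
    by_contra h
    exact hi (Finsupp.single_eq_of_ne h)
  rw [this]
  exact hz j

lemma HS_pow_mv (n k e : ℕ) (he : 1 ≤ e) (z : Fin n) (hz : ∀ i, z ≤ i) (j : Fin n) (hj : z < j) :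
    (HS n e (mv j z (Finsupp.single z k))).card + (Mon n (e - 1)).card ≤ (Mon n e).card := by
  classical
  have hinj : Function.Injective (fun w : Fin n →₀ ℕ => w + Finsupp.single z 1) :=
    fun a b h => add_right_cancel h
  rw [← Finset.card_image_of_injective (Mon n (e - 1)) hinj, ← Finset.card_union_of_disjoint]
  · apply Finset.card_le_card
    intro w hw
    rw [Finset.mem_union] at hw
    rcases hw with hw | hw
    · exact (Finset.mem_filter.1 hw).1
    · obtain ⟨v, hv, rfl⟩ := Finset.mem_image.1 hw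
      rw [mem_Mon'] at hv ⊢
      rw [map_add, hv, Finsupp.degree_single]
      omega
  · rw [Finset.disjoint_left]
    intro w hw hw'
    obtain ⟨v, hv, rfl⟩ := Finset.mem_image.1 hw'
    have h := (Finset.mem_filter.1 hw).2 j z (mv_apply_target j z _) (by simp)
    exact absurd hj (not_lt.2 h)

end

section

private lemma cancel {n : ℕ} {x : Fin n →₀ ℕ} {i : Fin n} (hi : 0 < x i) :
    x - Finsupp.single i 1 + Finsupp.single i 1 = x :=
  tsub_add_cancel_of_le (Finsupp.single_le_iff.2 hi)

private lemma sum_single {n : ℕ} (y : Fin n →₀ ℕ) (i : Fin n) :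
    ∑ j, (y + Finsupp.single i 1 : Fin n →₀ ℕ) j = (∑ j, y j) + 1 := by
  simp only [Finsupp.add_apply, Finset.sum_add_distrib]
  congr 1
  simp [Finsupp.single_apply]

private lemma mvm {n e : ℕ} {x : Fin n →₀ ℕ} (hx : x ∈ Mon n e) {i : Fin n} (m : Fin n)
    (hi : 0 < x i) : mv m i x ∈ Mon n e := by
  rw [mem_Mon] at hx ⊢
  unfold mv
  rw [sum_single, ← sum_single (x - Finsupp.single i 1) i, cancel hi]
  exact hx

lemma stab_up {n : ℕ} (e : ℕ) (m : Fin n) (hm : ∀ i, i ≤ m) (B : Finset (Fin n →₀ ℕ))
    (hs : Stable B) (w x : Fin n →₀ ℕ) (hx : x ∈ Mon n e) (h : w + Finsupp.single m e ∈ B) :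
    w + x ∈ B := by
  have key : ∀ t : ℕ, ∀ x : Fin n →₀ ℕ, x ∈ Mon n e → e - x m = t → w + x ∈ B := by
    intro t
    induction t with
    | zero =>
      intro x hx ht
      have hsum := mem_Mon.1 hx
      have h1 := Finset.add_sum_erase univ (fun i => x i) (Finset.mem_univ m)
      have h2 : ∑ i ∈ univ.erase m, x i = 0 := by omega
      have h3 : x m = e := by omega
      have h4 : x = Finsupp.single m e := by
        ext i
        by_cases hi : i = m
        · subst hi
          rw [h3, Finsupp.single_eq_same]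
        · rw [Finset.sum_eq_zero_iff.1 h2 i (Finset.mem_erase.2 ⟨hi, Finset.mem_univ i⟩),
            Finsupp.single_eq_of_ne hi]
      rw [h4]
      exact h
    | succ t ih =>
      intro x hx ht
      have hsum := mem_Mon.1 hx
      have h1 := Finset.add_sum_erase univ (fun i => x i) (Finset.mem_univ m)
      have h2 : ∑ i ∈ univ.erase m, x i ≠ 0 := by omega
      obtain ⟨i, hi, hi0⟩ := Finset.exists_ne_zero_of_sum_ne_zero h2
      have him : i ≠ m := (Finset.mem_erase.1 hi).1
      have hi0' : 0 < x i := Nat.pos_of_ne_zero hi0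
      have h3 := ih (mv m i x) (mvm hx m hi0') (by
        have : (mv m i x) m = x m + 1 := by
          unfold mv
          rw [Finsupp.add_apply, Finsupp.tsub_apply, Finsupp.single_eq_same,
            Finsupp.single_eq_of_ne (Ne.symm him), Nat.sub_zero]
        omega)
      have h4 := hs _ h3 i m (lt_of_le_of_ne (hm i) him) (by
        unfold mv
        rw [Finsupp.add_apply, Finsupp.add_apply, Finsupp.single_eq_same]
        omega)
      have h5 : mv i m (w + mv m i x) = w + x := by
        unfold mv
        rw [← add_assoc, add_tsub_cancel_right, add_assoc, cancel hi0']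
      rwa [h5] at h4
  exact key _ x hx rfl

/-- the set of the w' with w' x_m^e outside B is not larger than the complement of B -/
lemma Bc_card {n : ℕ} (f e : ℕ) (m : Fin n) (B : Finset (Fin n →₀ ℕ)) :
    ((Mon n f).filter (fun w => w + Finsupp.single m e ∉ B)).card ≤ (Mon n (f + e) \ B).card := by
  refine Finset.card_le_card_of_injOn (fun w => w + Finsupp.single m e) ?_ ?_
  · intro w hw
    have hw' := Finset.mem_filter.1 (Finset.mem_coe.1 hw)
    refine Finset.mem_coe.2 (Finset.mem_sdiff.2 ⟨?_, hw'.2⟩)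
    rw [mem_Mon]
    simp only [Finsupp.add_apply, Finset.sum_add_distrib]
    rw [mem_Mon.1 hw'.1]
    simp [Finsupp.single_apply]
  · intro a _ b _ hab
    exact add_right_cancel hab

end

section

lemma double_count (n k d e : ℕ) (hn : 1 ≤ n) (hed : e ≤ d) (U : Finset (Fin n →₀ ℕ))
    (Y V : Finset (Fin n →₀ ℕ)) (hU : U ⊆ Mon n (k + d)) (hY : Y ⊆ Mon n (k + e))
    (hV : V ⊆ Mon n (d - e))
    (h : ∀ y ∈ Mon n (k + e), ∀ w ∈ Mon n (d - e), y + w ∈ U → y ∈ Y ∨ w ∈ V) :
    U.card * (k + d).choose (k + e) ≤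
      Y.card * (k + d + n - 1).choose (d - e) + V.card * (k + d + n - 1).choose (k + e) := by
  classical
  obtain ⟨f, rfl⟩ : ∃ f, d = e + f := ⟨d - e, by omega⟩
  rw [Nat.add_sub_cancel_left] at hV h ⊢
  have e1 : k + (e + f) = (k + e) + f := by ring
  rw [e1] at hU ⊢
  generalize k + e = K at *
  have hpair : ∑ c ∈ Mon n K, ∑ c' ∈ Mon n f, (if c + c' ∈ U then W c c' else 0) =
      U.card * (K + f).choose K := by
    rw [← Finset.sum_product']
    have h1 : ∑ x ∈ Mon n K ×ˢ Mon n f, (if x.1 + x.2 ∈ U then W x.1 x.2 else 0) =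
        ∑ x ∈ Mon n K ×ˢ Mon n f, ∑ u ∈ U, (if x.1 + x.2 = u then W x.1 x.2 else 0) := by
      refine Finset.sum_congr rfl fun x _ => ?_
      rw [Finset.sum_ite_eq]
    rw [h1, Finset.sum_comm]
    rw [← smul_eq_mul, ← Finset.sum_const]
    refine Finset.sum_congr rfl fun u hu => ?_
    rw [← Finset.sum_filter]
    exact split_thm n K f u (hU hu)
  have hYs : ∑ c ∈ Mon n K, ∑ c' ∈ Mon n f, (if c ∈ Y then W c c' else 0) =
      Y.card * (K + f + n - 1).choose f := by
    have h1 : ∀ c ∈ Mon n K, ∑ c' ∈ Mon n f, (if c ∈ Y then W c c' else 0) =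
        if c ∈ Y then (K + f + n - 1).choose f else 0 := by
      intro c hc
      split_ifs
      · exact vand_thm n K f hn c hc
      · exact Finset.sum_const_zero
    rw [Finset.sum_congr rfl h1, ← Finset.sum_filter, Finset.sum_const, smul_eq_mul,
      Finset.filter_mem_eq_inter, Finset.inter_eq_right.2 hY]
  have hVs : ∑ c ∈ Mon n K, ∑ c' ∈ Mon n f, (if c' ∈ V then W c c' else 0) =
      V.card * (K + f + n - 1).choose K := by
    rw [Finset.sum_comm]
    have h1 : ∀ c' ∈ Mon n f, ∑ c ∈ Mon n K, (if c' ∈ V then W c c' else 0) =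
        if c' ∈ V then (K + f + n - 1).choose K else 0 := by
      intro c' hc'
      split_ifs
      · have h2 := vand_thm n f K hn c' hc'
        rw [add_comm K f, ← h2]
        exact Finset.sum_congr rfl fun c _ => MainIneq.W_comm c c'
      · exact Finset.sum_const_zero
    rw [Finset.sum_congr rfl h1, ← Finset.sum_filter, Finset.sum_const, smul_eq_mul,
      Finset.filter_mem_eq_inter, Finset.inter_eq_right.2 hV]
  rw [← hpair, ← hYs, ← hVs, ← Finset.sum_add_distrib]
  refine Finset.sum_le_sum fun c hc => ?_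
  rw [← Finset.sum_add_distrib]
  refine Finset.sum_le_sum fun c' hc' => ?_
  by_cases hu : c + c' ∈ U
  · rw [if_pos hu]
    rcases h c hc c' hc' hu with h1 | h1
    · rw [if_pos h1]
      exact Nat.le_add_right _ _
    · rw [if_pos h1]
      exact Nat.le_add_left _ _
  · rw [if_neg hu]
    exact Nat.zero_le _

end

section

/-- conclusion of the counting: all numbers natural -/
lemma numer (n k d M m0 s s' : ℕ) (hn : 1 ≤ n) (hd : 3 * k + 2 ≤ d)
    (h1 : M * (k + d).choose (k + (k + 1)) ≤
      m0 * (k + d + n - 1).choose (d - (k + 1)) + s' * (k + d + n - 1).choose (k + (k + 1)))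
    (h2 : m0 * (n + k - 1).choose k + s * (n + k - 1).choose k ≤
      s * (n + (k + (k + 1)) - 1).choose (k + (k + 1)))
    (hs : s' ≤ s) :
    M * (n + k - 1).choose k ≤ s * (n + (k + d) - 1).choose (k + d) := by
  have eA : n + (k + d) - 1 = k + d + n - 1 := by omega
  rw [eA]
  have i2 := Nat.choose_mul (n := k + d + n - 1) (k := k + d) (s := k + (k + 1)) (by omega)
  have i1 := Nat.choose_mul (n := k + d + n - 1) (k := k + d) (s := d - (k + 1)) (by omega)
  have e1 : (k + d).choose (d - (k + 1)) = (k + d).choose (k + (k + 1)) := by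
    have := Nat.choose_symm (n := k + d) (k := k + (k + 1)) (by omega)
    rw [← this]; congr 1; omega
  have e2 : k + d + n - 1 - (d - (k + 1)) = n + (k + (k + 1)) - 1 := by omega
  have e3 : k + d - (d - (k + 1)) = k + (k + 1) := by omega
  rw [e1, e2, e3] at i1
  have e4 : (k + d + n - 1 - (k + (k + 1))).choose (k + d - (k + (k + 1))) =
      (k + d + n - 1 - (k + (k + 1))).choose (n - 1) := by
    have := Nat.choose_symm (n := k + d + n - 1 - (k + (k + 1))) (k := n - 1) (by omega)
    rw [← this]; congr 1; omega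
  have e5 : (n + (k + (k + 1)) - 1).choose (k + (k + 1)) =
      (n + (k + (k + 1)) - 1).choose (n - 1) := by
    have := Nat.choose_symm (n := n + (k + (k + 1)) - 1) (k := n - 1) (by omega)
    rw [← this]; congr 1; omega
  have hle : (n + (k + (k + 1)) - 1).choose (n - 1) ≤
      (k + d + n - 1 - (k + (k + 1))).choose (n - 1) :=
    Nat.choose_le_choose _ (by omega)
  rw [e4] at i2
  rw [e5] at i1 h2
  have hP : 0 < (k + d).choose (k + (k + 1)) := Nat.choose_pos (by omega)
  have hC2 : 0 < (k + d + n - 1 - (k + (k + 1))).choose (n - 1) := Nat.choose_pos (by omega)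
  generalize (k + d).choose (k + (k + 1)) = P at *
  generalize (k + d + n - 1).choose (d - (k + 1)) = X at *
  generalize (k + d + n - 1).choose (k + (k + 1)) = Y at *
  generalize (k + d + n - 1).choose (k + d) = ND at *
  generalize (n + (k + (k + 1)) - 1).choose (n - 1) = C1 at *
  generalize (k + d + n - 1 - (k + (k + 1))).choose (n - 1) = C2 at *
  generalize (n + k - 1).choose k = Nk at *
  have hYX : Y ≤ X := by
    have : Y * C2 ≤ X * C2 := by
      rw [← i2, i1]
      exact Nat.mul_le_mul_left _ hle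
    exact Nat.le_of_mul_le_mul_right this hC2
  have h3 : M * P ≤ m0 * X + s * X := h1.trans (Nat.add_le_add_left (Nat.mul_le_mul hs hYX) _)
  refine Nat.le_of_mul_le_mul_right (c := P) ?_ hP
  calc M * Nk * P = M * P * Nk := by ring
    _ ≤ (m0 * X + s * X) * Nk := Nat.mul_le_mul_right _ h3
    _ = (m0 * Nk + s * Nk) * X := by ring
    _ ≤ (s * C1) * X := Nat.mul_le_mul_right _ h2
    _ = s * (X * C1) := by ring
    _ = s * ND * P := by rw [← i1]; ring

/-- the count in the last degree: for `N ≥ 2`, `3 m + 2 ≤ d ≤ 3 m + 4` -/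
lemma count4 (N m d : ℕ) (hN : 2 ≤ N) (hd : d ≤ 3 * m + 4) :
    (d + m + N).choose N ≤ 4 ^ N * (m + N).choose N := by
  refine (Nat.choose_le_choose N (show d + m + N ≤ 4 * m + 4 + N by omega)).trans ?_
  clear hd
  induction N, hN using Nat.le_induction with
  | base =>
    have a1 : (4 * m + 6).choose 2 * 2 = (4 * m + 6) * (4 * m + 5) := by
      have := Nat.add_one_mul_choose_eq (4 * m + 5) 1
      simp only [Nat.choose_one_right] at this
      exact this.symm
    have a2 : (m + 2).choose 2 * 2 = (m + 2) * (m + 1) := by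
      have := Nat.add_one_mul_choose_eq (m + 1) 1
      simp only [Nat.choose_one_right] at this
      exact this.symm
    show (4 * m + 6).choose 2 ≤ 4 ^ 2 * (m + 2).choose 2
    nlinarith
  | succ N hN ih =>
    have a1 := Nat.add_one_mul_choose_eq (4 * m + 4 + N) N
    have a2 := Nat.add_one_mul_choose_eq (m + N) N
    refine Nat.le_of_mul_le_mul_right (c := N + 1) ?_ (Nat.succ_pos N)
    show (4 * m + 4 + N + 1).choose (N + 1) * (N + 1) ≤ 4 ^ (N + 1) * (m + N + 1).choose (N + 1) * (N + 1)
    rw [← a1, mul_assoc, ← a2]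
    calc (4 * m + 4 + N + 1) * (4 * m + 4 + N).choose N ≤
        (4 * (m + N + 1)) * (4 ^ N * (m + N).choose N) :=
          Nat.mul_le_mul (by omega) ih
      _ = 4 ^ (N + 1) * ((m + N + 1) * (m + N).choose N) := by ring

end

end Pool.Agent.TH176.NM
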