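import Pool.Agent.TH176.NM.Key

/-!
The product inequality for sets of monomials of degrees `k` and `d` with `3 k + 2 ≤ d`.
-/

set_option autoImplicit false

namespace Pool.Agent.TH176.NM

open Finset Pool.Agent.TH206.Fro
open scoped Pointwise

/-- The product inequality for strongly stable sets. -/
theorem main_new (n k d : ℕ) (hn : 1 ≤ n) (hd : 3 * k + 2 ≤ d) (A B : Finset (Fin n →₀ ℕ))
    (hA : A ⊆ Mon n k) (hB : B ⊆ Mon n d) (sA : Stable A) (sB : Stable B) (hA0 : A.Nonempty)
    (hcard : A.card + (Mon n d).card = B.card + (Mon n k).card) :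
    A.card * (Mon n (k + d)).card ≤ (A + B).card * (Mon n k).card := by
  classical
  obtain ⟨m, hm⟩ : ∃ m : Fin n, ∀ i, i ≤ m :=
    ⟨⟨n - 1, by omega⟩, fun i => Fin.mk_le_mk.2 (by have := i.2; omega)⟩
  obtain ⟨s, hs⟩ : ∃ s, s = (Mon n k \ A).card := ⟨_, rfl⟩
  obtain ⟨V, hV⟩ : ∃ V, V = (Mon n (d - (k + 1))).filter
    (fun w => w + Finsupp.single m (k + 1) ∉ B) := ⟨_, rfl⟩
  obtain ⟨U, hU⟩ : ∃ U, U = Mon n (k + d) \ (A + B) := ⟨_, rfl⟩
  have c1 : (Mon n k \ A).card + A.card = (Mon n k).card := Finset.card_sdiff_add_card_eq_card hA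
  have c2 : (Mon n d \ B).card + B.card = (Mon n d).card := Finset.card_sdiff_add_card_eq_card hB
  have hABsub : A + B ⊆ Mon n (k + d) := by
    intro u hu
    obtain ⟨a, ha, b, hb, rfl⟩ := Finset.mem_add.1 hu
    have h1 := mem_Mon'.1 (hA ha)
    have h2 := mem_Mon'.1 (hB hb)
    rw [mem_Mon', map_add, h1, h2]
  have c3 : U.card + (A + B).card = (Mon n (k + d)).card := by
    rw [hU]; exact Finset.card_sdiff_add_card_eq_card hABsub
  have hVs : V.card ≤ s := by
    have h1 := Bc_card (d - (k + 1)) (k + 1) m B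
    rw [show d - (k + 1) + (k + 1) = d by omega] at h1
    rw [hV]
    omega
  have hkey := key_thm n k (k + 1) hn (by omega) A hA sA hA0
  rw [show k + 1 - 1 = k by omega, ← hs] at hkey
  have hdc := double_count n k d (k + 1) hn (by omega) U (M0 n (k + (k + 1)) A) V
    (by rw [hU]; exact Finset.sdiff_subset) (Finset.filter_subset _ _)
    (by rw [hV]; exact Finset.filter_subset _ _) (by
      intro y hy w hw hyw
      by_contra hcon
      push Not at hcon
      obtain ⟨h1, h2⟩ := hcon
      have h3 : ∃ a ∈ A, a ≤ y := by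
        by_contra h4
        push Not at h4
        exact h1 (Finset.mem_filter.2 ⟨hy, h4⟩)
      obtain ⟨a, ha, hay⟩ := h3
      have h5 : w + Finsupp.single m (k + 1) ∈ B := by
        by_contra h6
        exact h2 (by rw [hV]; exact Finset.mem_filter.2 ⟨hw, h6⟩)
      have h6 : a + (y - a) = y := add_tsub_cancel_of_le hay
      have h7 : y - a ∈ Mon n (k + 1) := by
        have h8 := mem_Mon'.1 hy
        rw [← h6, map_add, mem_Mon'.1 (hA ha)] at h8
        rw [mem_Mon']
        omega
      have h8 := stab_up (k + 1) m hm B sB w (y - a) h7 h5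
      rw [hU] at hyw
      apply (Finset.mem_sdiff.1 hyw).2
      have h9 : y + w = a + (w + (y - a)) := by
        rw [add_left_comm, h6, add_comm]
      rw [h9]
      exact Finset.add_mem_add ha h8)
  have hnum := numer n k d U.card (M0 n (k + (k + 1)) A).card s V.card hn hd hdc (by
    rw [← card_Mon, ← card_Mon]
    exact hkey) hVs
  rw [← card_Mon, ← card_Mon] at hnum
  have c1' : s + A.card = (Mon n k).card := by omega
  obtain ⟨x, hx⟩ : ∃ x, x = (Mon n k).card := ⟨_, rfl⟩
  obtain ⟨y, hy⟩ : ∃ y, y = (Mon n (k + d)).card := ⟨_, rfl⟩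
  rw [← hx, ← hy] at hnum ⊢
  rw [← hx] at c1'
  rw [← hy] at c3
  have e1 : A.card * y + s * y = x * y := by rw [← add_mul, add_comm A.card, c1']
  have e2 : (A + B).card * x + U.card * x = y * x := by rw [← add_mul, add_comm (A + B).card, c3]
  have e3 : x * y = y * x := mul_comm _ _
  omega

/-- The product inequality for all sets of monomials. -/
theorem monM_new (n k d : ℕ) (hn : 1 ≤ n) (hd : 3 * k + 2 ≤ d) : MonM n k d := by
  intro A B hA hB hA0 hcard
  have h0 : 0 < A.card := hA0.card_pos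
  have h1 := card_Mon_mono (n := n) hn (show k ≤ d by omega)
  have hB0 : B.Nonempty := Finset.card_pos.1 (by omega)
  obtain ⟨A', B', hA', hB', sA, sB, cA, cB, hAB⟩ := comp_thm n k d A B hA hB hA0 hB0
  have h2 := main_new n k d hn hd A' B' hA' hB' sA sB (Finset.card_pos.1 (by omega)) (by omega)
  rw [cA] at h2
  exact h2.trans (Nat.mul_le_mul_right _ hAB)

/-- `k = 0` -/
theorem monM_zero (n d : ℕ) : MonM n 0 d := by
  classical
  intro A B hA hB hA0 hcard
  have h0 : (Mon n 0).card = 1 := by rw [card_Mon]; simp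
  have hA1 : A.card ≤ 1 := h0 ▸ Finset.card_le_card hA
  have hA2 : 0 < A.card := hA0.card_pos
  have hA3 : A.card = 1 := by omega
  have hBd : B = Mon n d := Finset.eq_of_subset_of_card_le hB (by omega)
  obtain ⟨a, ha⟩ := hA0
  have ha0 : a = 0 := by
    have h1 := mem_Mon'.1 (hA ha)
    exact (Finsupp.degree_eq_zero_iff a).1 h1
  rw [hA3, h0, hBd, one_mul, mul_one, zero_add]
  refine Finset.card_le_card fun b hb => ?_
  have h2 := Finset.add_mem_add ha hb
  rwa [ha0, zero_add] at h2

end Pool.Agent.TH176.NM
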